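import Pool.Graph.R_pool_sql_team_seeded_2aa45f1a.Results.MP_da621d_pr.VagueLimit

/-!
# The limit measure of the rescaled laws of the random solid angle (MP_da621d_pr)

The vague limit `μ` of `μ_d(A) = 2^d d P[α_d ∈ A]` exists (an earlier run).  Here: it is unique, it is
concentrated on `(0, 1/2]`, gives finite mass to `[t, ∞)` for all `t > 0`, and no mass escapes to `0`
for the measures `x³ μ_d`: they converge weakly to `x³ μ`; in particular the moments of order
`k ≥ 3` of `μ` are the limits of `2^d d m(d,k)`.  Moreover `2^d d P[α_d ≥ t] → μ([t, ∞))` for all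
`t > 0` that are not atoms of `μ`.
-/

set_option autoImplicit false

open MeasureTheory Filter Topology
open scoped ENNReal

namespace Pool.Agent.Results.MP_da621d_pr.LimitMeasure

open Pool.Agent.Q215.Cone

/-! ### The solid angle is at most one half -/

theorem ar_le_half {n : ℕ} (hn : 0 < n) {G : Mt n n} (hG : (mat G).det ≠ 0) : ar G ≤ 1 / 2 := by
  obtain ⟨A, hA⟩ : ∃ A : Set (Fin n → ℝ), A = {x | ∀ i, 0 ≤ Matrix.vecMul x (mat G)⁻¹ i} := ⟨_, rfl⟩
  have hmeas : MeasurableSet A := by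
    have : A = ⋂ i, {x : Fin n → ℝ | 0 ≤ Matrix.vecMul x (mat G)⁻¹ i} := by
      rw [hA]; ext z; simp
    rw [this]
    refine MeasurableSet.iInter fun i => measurableSet_le measurable_const ?_
    have : Continuous (fun x : Fin n → ℝ => Matrix.vecMul x (mat G)⁻¹ i) := by
      unfold Matrix.vecMul dotProduct
      fun_prop
    exact this.measurable
  have hmp := ga_orth (-1 : Matrix (Fin n) (Fin n) ℝ) (by simp)
  have hneg : ga n ((fun x => Matrix.vecMul x (-1 : Matrix (Fin n) (Fin n) ℝ)) ⁻¹' A) = ga n A :=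
    hmp.measure_preimage hmeas.nullMeasurableSet
  have hinter : A ∩ ((fun x => Matrix.vecMul x (-1 : Matrix (Fin n) (Fin n) ℝ)) ⁻¹' A) ⊆ {0} := by
    rintro x ⟨h1, h2⟩
    rw [hA] at h1
    rw [Set.mem_preimage, hA] at h2
    have h3 : Matrix.vecMul x (mat G)⁻¹ = 0 := by
      funext i
      have h4 := h1 i
      have h5 := h2 i
      rw [Matrix.vecMul_neg, Matrix.vecMul_one, Matrix.neg_vecMul, Pi.neg_apply] at h5
      have : Matrix.vecMul x (mat G)⁻¹ i = 0 := by linarith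
      exact this
    have h6 : Matrix.vecMul (Matrix.vecMul x (mat G)⁻¹) (mat G) = x := by
      rw [Matrix.vecMul_vecMul, Matrix.nonsing_inv_mul _ (isUnit_iff_ne_zero.2 hG),
        Matrix.vecMul_one]
    rw [h3, Matrix.zero_vecMul] at h6
    exact h6.symm
  have hzero : ga n {0} = 0 := by
    have : Nonempty (Fin n) := ⟨⟨0, hn⟩⟩
    have h := ga_sub n ⊥ bot_ne_top
    simpa using h
  have hnull := measure_mono_null hinter hzero
  have hsum : ga n A + ga n A ≤ 1 := by
    have h1 := measure_union_add_inter (μ := ga n)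
      A (t := (fun x => Matrix.vecMul x (-1 : Matrix (Fin n) (Fin n) ℝ)) ⁻¹' A)
      (hmp.measurable hmeas)
    rw [hnull, add_zero, hneg] at h1
    rw [← h1]
    exact prob_le_one
  have h2 : ar G + ar G ≤ 1 := by
    have e : ar G = (ga n A).toReal := by rw [hA]; rfl
    have hfin : ga n A ≠ ⊤ := measure_ne_top _ _
    rw [e, ← ENNReal.toReal_add hfin hfin]
    exact ENNReal.toReal_mono ENNReal.one_ne_top hsum
  linarith

theorem ae_le_half {d : ℕ} (hd : 0 < d) : ∀ᵐ G ∂(gm d d), ar G ≤ 1 / 2 := by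
  filter_upwards [gm_det d] with G hG
  exact ar_le_half hd hG

/-! ### Integrals with respect to `μ_d` -/

theorem int_mu_gen {d : ℕ} (hd : 0 < d) {F : ℝ → ℝ} (hF : Continuous F) (h0 : F 0 = 0) :
    ∫ x : Set.Ioi (0 : ℝ), F x ∂(mu d) = 2 ^ d * d * ∫ G, F (ar G) ∂(gm d d) := by
  have := (unif hd).prob
  have hae : AEMeasurable (fun U : Fin d → EuclideanSpace ℝ (Fin d) => angle (pos U)) (law d) :=
    ⟨al (sigma d), measurable_al, angle_eq hd⟩
  have hc' : Continuous fun x : ℝ => F (max x 0) := hF.comp (continuous_id.max continuous_const)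
  have h1 : ∀ x : Set.Ioi (0 : ℝ), F x = (fun x : ℝ => F (max x 0)) x := fun x => by
    have hx : (0 : ℝ) < x := x.2
    simp only [max_eq_left hx.le]
  simp_rw [h1]
  unfold mu
  rw [integral_smul_measure, ENNReal.toReal_ofReal (by positivity), smul_eq_mul]
  congr 1
  rw [integral_subtype_comap measurableSet_Ioi (fun x : ℝ => F (max x 0))]
  have h2 : ∫ x in Set.Ioi 0, F (max x 0)
      ∂((law d).map (fun U : Fin d → EuclideanSpace ℝ (Fin d) => angle (pos U))) =
      ∫ x, F (max x 0)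
        ∂((law d).map (fun U : Fin d → EuclideanSpace ℝ (Fin d) => angle (pos U))) := by
    refine setIntegral_eq_integral_of_forall_compl_eq_zero fun x hx => ?_
    rw [max_eq_right (not_lt.1 hx)]
    exact h0
  rw [h2, integral_map hae hc'.aestronglyMeasurable, int_law hd _ hc'.measurable]
  refine integral_congr_ae (Filter.Eventually.of_forall fun G => ?_)
  change F (max (ar G) 0) = F (ar G)
  rw [max_eq_left (ar_nonneg G)]

theorem int_mu_sq {d : ℕ} (hd : 0 < d) {h : ℝ → ℝ} (hc : Continuous h) :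
    ∫ x : Set.Ioi (0 : ℝ), (x : ℝ) ^ 2 * h x ∂(mu d) = Rd d h :=
  int_mu_gen hd (F := fun x => x ^ 2 * h x) (by fun_prop) (by simp)

theorem cs {F : ℝ → ℝ} {a b : ℝ} (ha : 0 < a) (h : ∀ x, x < a ∨ b < x → F x = 0) :
    HasCompactSupport (fun x : Set.Ioi (0 : ℝ) => F x) := by
  have hK : IsCompact ((Subtype.val : Set.Ioi (0 : ℝ) → ℝ) ⁻¹' (Set.Icc a b)) := by
    rw [Subtype.isCompact_iff, Subtype.image_preimage_coe]
    have : Set.Ioi (0 : ℝ) ∩ Set.Icc a b = Set.Icc a b :=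
      Set.inter_eq_right.2 fun x hx => lt_of_lt_of_le ha hx.1
    rw [this]
    exact isCompact_Icc
  refine HasCompactSupport.intro hK fun x hx => h x ?_
  by_contra hcon
  push Not at hcon
  exact hx ⟨hcon.1, hcon.2⟩

instance : IsLocallyFiniteMeasure muLim := muLim_locallyFinite

/-- `μ` is concentrated on `(0, 1/2]`. -/
theorem muLim_half : muLim {x : Set.Ioi (0 : ℝ) | 1 / 2 < (x : ℝ)} = 0 := by
  have key : ∀ N : ℕ, muLim {x : Set.Ioi (0 : ℝ) |
      max 0 ((x : ℝ) - 1 / 2) * max 0 (min 1 ((N : ℝ) - x)) ≠ 0} = 0 := by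
    intro N
    obtain ⟨F, hF⟩ : ∃ F : ℝ → ℝ, F = fun x => max 0 (x - 1 / 2) * max 0 (min 1 ((N : ℝ) - x)) :=
      ⟨_, rfl⟩
    have hc : Continuous F := by rw [hF]; fun_prop
    have hlow : ∀ x, x ≤ 1 / 2 → F x = 0 := by
      intro x hx
      rw [hF]
      simp only
      rw [max_eq_left (by linarith), zero_mul]
    have hs : HasCompactSupport (fun x : Set.Ioi (0 : ℝ) => F x) := by
      refine cs (a := 1 / 2) (b := N) (by norm_num) fun x hx => ?_
      rcases hx with hx | hx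
      · exact hlow x hx.le
      · rw [hF]
        simp only
        have : min 1 ((N : ℝ) - x) ≤ 0 := (min_le_right _ _).trans (by linarith)
        rw [max_eq_left this, mul_zero]
    have hcc : Continuous (fun x : Set.Ioi (0 : ℝ) => F x) := hc.comp continuous_subtype_val
    have hlim := muLim_spec hcc hs
    have hz : ∀ᶠ d : ℕ in atTop, ∫ x : Set.Ioi (0 : ℝ), F x ∂(mu d) = 0 := by
      filter_upwards [eventually_gt_atTop 0] with d hd
      rw [int_mu_gen hd hc (hlow 0 (by norm_num))]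
      have : ∫ G, F (ar G) ∂(gm d d) = 0 := by
        refine integral_eq_zero_of_ae ?_
        filter_upwards [ae_le_half hd] with G hG
        exact hlow _ hG
      rw [this, mul_zero]
    have h0 : ∫ x : Set.Ioi (0 : ℝ), F x ∂muLim = 0 :=
      tendsto_nhds_unique hlim (tendsto_const_nhds.congr' (hz.mono fun d h => h.symm))
    have hnn : 0 ≤ fun x : Set.Ioi (0 : ℝ) => F x := fun x => by
      rw [hF]
      exact mul_nonneg (le_max_left _ _) (le_max_left _ _)
    have hae := (integral_eq_zero_iff_of_nonneg hnn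
      (hcc.integrable_of_hasCompactSupport hs)).1 h0
    rw [hF] at hae
    exact hae
  have hsub : {x : Set.Ioi (0 : ℝ) | 1 / 2 < (x : ℝ)} ⊆ ⋃ N : ℕ, {x : Set.Ioi (0 : ℝ) |
      max 0 ((x : ℝ) - 1 / 2) * max 0 (min 1 ((N : ℝ) - x)) ≠ 0} := by
    intro x hx
    obtain ⟨N, hN⟩ := exists_nat_gt (x : ℝ)
    rw [Set.mem_iUnion]
    refine ⟨N, ?_⟩
    have hx' : 1 / 2 < (x : ℝ) := hx
    have h1 : 0 < max 0 ((x : ℝ) - 1 / 2) := lt_max_of_lt_right (by linarith)
    have h2 : 0 < max 0 (min 1 ((N : ℝ) - x)) :=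
      lt_max_of_lt_right (lt_min one_pos (by linarith))
    exact (mul_pos h1 h2).ne'
  exact measure_mono_null hsub (measure_iUnion_null key)

theorem ae_half : ∀ᵐ x : Set.Ioi (0 : ℝ) ∂muLim, (x : ℝ) ≤ 1 / 2 := by
  rw [ae_iff]
  have : {x : Set.Ioi (0 : ℝ) | ¬ (x : ℝ) ≤ 1 / 2} = {x : Set.Ioi (0 : ℝ) | 1 / 2 < (x : ℝ)} := by
    ext x; simp
  rw [this]
  exact muLim_half

theorem muLim_tail {t : ℝ} (ht : 0 < t) : muLim {x : Set.Ioi (0 : ℝ) | t ≤ (x : ℝ)} < ⊤ := by
  have hK : IsCompact ((Subtype.val : Set.Ioi (0 : ℝ) → ℝ) ⁻¹' (Set.Icc t (1 / 2))) := by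
    rw [Subtype.isCompact_iff, Subtype.image_preimage_coe]
    have : Set.Ioi (0 : ℝ) ∩ Set.Icc t (1 / 2) = Set.Icc t (1 / 2) :=
      Set.inter_eq_right.2 fun x hx => lt_of_lt_of_le ht hx.1
    rw [this]
    exact isCompact_Icc
  have hsub : {x : Set.Ioi (0 : ℝ) | t ≤ (x : ℝ)} ⊆
      ((Subtype.val : Set.Ioi (0 : ℝ) → ℝ) ⁻¹' (Set.Icc t (1 / 2))) ∪
        {x : Set.Ioi (0 : ℝ) | 1 / 2 < (x : ℝ)} := by
    intro x hx
    by_cases h : (x : ℝ) ≤ 1 / 2
    · exact Or.inl ⟨hx, h⟩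
    · exact Or.inr (not_le.1 h)
  refine (measure_mono hsub).trans_lt ((measure_union_le _ _).trans_lt ?_)
  rw [muLim_half, add_zero]
  exact hK.measure_lt_top

/-! ### A cut-off function -/

/-- A cut-off function. -/
noncomputable def ch (ε x : ℝ) : ℝ := min 1 (max 0 (x / ε - 1)) * max 0 (min 1 (2 - x))

theorem continuous_ch (ε : ℝ) : Continuous (ch ε) := by
  unfold ch
  fun_prop

theorem ch_nonneg (ε x : ℝ) : 0 ≤ ch ε x :=
  mul_nonneg (le_min zero_le_one (le_max_left _ _)) (le_max_left _ _)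

theorem ch_le_one (ε x : ℝ) : ch ε x ≤ 1 :=
  mul_le_one₀ (min_le_left _ _) (le_max_left _ _) (max_le zero_le_one (min_le_left _ _))

theorem ch_low {ε : ℝ} (hε : 0 < ε) {x : ℝ} (hx : x ≤ ε) : ch ε x = 0 := by
  unfold ch
  have h1 : x / ε - 1 ≤ 0 := by
    rw [sub_nonpos, div_le_one hε]
    exact hx
  rw [max_eq_left h1, min_eq_right zero_le_one, zero_mul]

theorem ch_high {ε x : ℝ} (hx : 2 ≤ x) : ch ε x = 0 := by
  unfold ch
  have h1 : min 1 (2 - x) ≤ 0 := (min_le_right _ _).trans (by linarith)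
  rw [max_eq_left h1, mul_zero]

theorem ch_one {ε : ℝ} (hε : 0 < ε) {x : ℝ} (h1 : 2 * ε ≤ x) (h2 : x ≤ 1) : ch ε x = 1 := by
  unfold ch
  have h3 : 1 ≤ x / ε - 1 := by
    rw [le_sub_iff_add_le, le_div_iff₀ hε]
    linarith
  rw [max_eq_right (by linarith : (0 : ℝ) ≤ x / ε - 1), min_eq_left h3,
    min_eq_left (by linarith : (1 : ℝ) ≤ 2 - x), max_eq_right zero_le_one, mul_one]

theorem cut_support {ε : ℝ} (hε : 0 < ε) {F : ℝ → ℝ} :
    HasCompactSupport (fun x : Set.Ioi (0 : ℝ) => F x * ch ε x) := by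
  refine cs (F := fun x => F x * ch ε x) (a := ε) (b := 2) hε fun x hx => ?_
  rcases hx with hx | hx
  · simp only [ch_low hε hx.le, mul_zero]
  · simp only [ch_high hx.le, mul_zero]

/-- Second moments. -/
theorem exists_bound : ∃ M : ℝ, 0 < M ∧ (∀ᶠ d : ℕ in atTop, Rd d (fun _ => 1) ≤ M) ∧
    ∫⁻ x : Set.Ioi (0 : ℝ), ENNReal.ofReal ((x : ℝ) ^ 2) ∂muLim ≤ ENNReal.ofReal M := by
  obtain ⟨L0, hL0⟩ := conv_pow 0
  simp only [pow_zero] at hL0
  have hbd : ∀ᶠ d in atTop, Rd d (fun _ => 1) ≤ |L0| + 1 := by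
    filter_upwards [hL0.eventually (gt_mem_nhds (lt_add_one L0))] with d hd
    have := le_abs_self L0
    have hd' : Rd d (fun _ => 1) < L0 + 1 := hd
    linarith
  refine ⟨|L0| + 1, by positivity, hbd, ?_⟩
  have hε : ∀ n : ℕ, (0 : ℝ) < 1 / (n + 1) := fun n => by positivity
  have hint : ∀ n : ℕ, ∫⁻ x : Set.Ioi (0 : ℝ),
      ENNReal.ofReal ((x : ℝ) ^ 2 * ch (1 / (n + 1)) x) ∂muLim ≤ ENNReal.ofReal (|L0| + 1) := by
    intro n
    have hs : HasCompactSupport (fun x : Set.Ioi (0 : ℝ) => (x : ℝ) ^ 2 * ch (1 / (n + 1)) x) :=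
      cut_support (F := fun x => x ^ 2) (hε n)
    have hc : Continuous (fun x : Set.Ioi (0 : ℝ) => (x : ℝ) ^ 2 * ch (1 / (n + 1)) x) :=
      (continuous_subtype_val.pow 2).mul ((continuous_ch _).comp continuous_subtype_val)
    have hlim := muLim_spec hc hs
    rw [← ofReal_integral_eq_lintegral_ofReal (hc.integrable_of_hasCompactSupport hs)
      (Eventually.of_forall fun x => mul_nonneg (sq_nonneg _) (ch_nonneg _ _))]
    refine ENNReal.ofReal_le_ofReal (le_of_tendsto hlim ?_)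
    filter_upwards [hbd, eventually_gt_atTop 0] with d hd hd0
    rw [int_mu_sq hd0 (continuous_ch _)]
    exact (Rd_mono d (continuous_ch _) continuous_const fun x _ => ch_le_one _ _).trans hd
  have hlimf : ∀ᵐ x : Set.Ioi (0 : ℝ) ∂muLim, ENNReal.ofReal ((x : ℝ) ^ 2) =
      liminf (fun n : ℕ => ENNReal.ofReal ((x : ℝ) ^ 2 * ch (1 / (n + 1)) x)) atTop := by
    filter_upwards [ae_half] with x hx
    have hx0 : (0 : ℝ) < x := x.2
    have hev : ∀ᶠ n : ℕ in atTop, ENNReal.ofReal ((x : ℝ) ^ 2 * ch (1 / (n + 1)) x) =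
        ENNReal.ofReal ((x : ℝ) ^ 2) := by
      obtain ⟨N, hN⟩ := exists_nat_gt (2 / (x : ℝ))
      filter_upwards [eventually_ge_atTop N] with n hn
      rw [ch_one (hε n) ?_ (by linarith), mul_one]
      have hn' : (N : ℝ) ≤ n := by exact_mod_cast hn
      have h1 : 2 / (x : ℝ) < n + 1 := by linarith
      rw [div_lt_iff₀ hx0] at h1
      rw [mul_one_div, div_le_iff₀ (by positivity)]
      linarith
    rw [liminf_congr hev, liminf_const]
  rw [lintegral_congr_ae hlimf]
  refine (lintegral_liminf_le fun n => ?_).trans ?_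
  · exact ((continuous_subtype_val.pow 2).mul
      ((continuous_ch _).comp continuous_subtype_val)).measurable.ennreal_ofReal
  · refine liminf_le_of_le (by isBoundedDefault) fun b hb => ?_
    obtain ⟨n, hn⟩ := hb.exists
    exact hn.trans (hint n)

theorem int_sq : Integrable (fun x : Set.Ioi (0 : ℝ) => (x : ℝ) ^ 2) muLim := by
  obtain ⟨M, -, -, hM⟩ := exists_bound
  refine ⟨(continuous_subtype_val.pow 2).aestronglyMeasurable, ?_⟩
  rw [hasFiniteIntegral_iff_ofReal (Eventually.of_forall fun x => sq_nonneg _)]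
  exact hM.trans_lt ENNReal.ofReal_lt_top

theorem int_cube {g : ℝ → ℝ} (hg : Continuous g) :
    Integrable (fun x : Set.Ioi (0 : ℝ) => (x : ℝ) ^ 3 * g x) muLim := by
  obtain ⟨C, hC⟩ := (isCompact_Icc (a := (0 : ℝ)) (b := 1)).exists_bound_of_continuousOn
    hg.continuousOn
  refine (int_sq.const_mul (|C| + 1)).mono' ((continuous_subtype_val.pow 3).mul
    (hg.comp continuous_subtype_val)).aestronglyMeasurable ?_
  filter_upwards [ae_half] with x hx
  have hx0 : (0 : ℝ) < x := x.2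
  have h1 := hC x ⟨hx0.le, by linarith⟩
  rw [norm_mul, norm_pow, Real.norm_eq_abs, abs_of_pos hx0]
  have h2 := le_abs_self C
  have h3 : (x : ℝ) ^ 3 ≤ (x : ℝ) ^ 2 := by
    rw [pow_succ]
    exact mul_le_of_le_one_right (by positivity) (by linarith)
  calc (x : ℝ) ^ 3 * ‖g x‖ ≤ (x : ℝ) ^ 2 * (|C| + 1) :=
        mul_le_mul h3 (by linarith) (norm_nonneg _) (by positivity)
    _ = (|C| + 1) * (x : ℝ) ^ 2 := mul_comm _ _

/-- The measures `x³ μ_d` converge weakly to `x³ μ`. -/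
theorem weak_cube {g : ℝ → ℝ} (hg : Continuous g) :
    Tendsto (fun d => ∫ x : Set.Ioi (0 : ℝ), (x : ℝ) ^ 3 * g x ∂(mu d)) atTop
      (𝓝 (∫ x : Set.Ioi (0 : ℝ), (x : ℝ) ^ 3 * g x ∂muLim)) := by
  obtain ⟨M, hM0, hM, hMl⟩ := exists_bound
  obtain ⟨C, hC⟩ := (isCompact_Icc (a := (0 : ℝ)) (b := 1)).exists_bound_of_continuousOn
    hg.continuousOn
  obtain ⟨B, hB⟩ : ∃ B : ℝ, B = |C| + 1 := ⟨_, rfl⟩
  have hB0 : 0 < B := by rw [hB]; positivity
  have hsq : ∫ x : Set.Ioi (0 : ℝ), (x : ℝ) ^ 2 ∂muLim ≤ M := by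
    rw [integral_eq_lintegral_of_nonneg_ae (Eventually.of_forall fun x => sq_nonneg _)
      (continuous_subtype_val.pow 2).aestronglyMeasurable]
    exact ENNReal.toReal_le_of_le_ofReal hM0.le hMl
  have hpt : ∀ ε : ℝ, 0 < ε → ∀ x : ℝ, x ∈ Set.Icc (0 : ℝ) 1 →
      |x * g x * (1 - ch ε x)| ≤ 2 * ε * B := by
    intro ε hε x hx
    have h1 := hC x hx
    rw [Real.norm_eq_abs] at h1
    have h2 := le_abs_self C
    by_cases hxε : 2 * ε ≤ x
    · rw [ch_one hε hxε hx.2, sub_self, mul_zero, abs_zero]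
      positivity
    · push Not at hxε
      have h3 : |1 - ch ε x| ≤ 1 := by
        rw [abs_le]
        constructor <;> linarith [ch_nonneg ε x, ch_le_one ε x]
      rw [abs_mul, abs_mul, abs_of_nonneg hx.1]
      calc x * |g x| * |1 - ch ε x| ≤ (2 * ε * B) * 1 := by
            refine mul_le_mul (mul_le_mul hxε.le (by linarith) (abs_nonneg _) (by positivity)) h3
              (abs_nonneg _) (by positivity)
        _ = 2 * ε * B := mul_one _
  rw [Metric.tendsto_atTop]
  intro η hη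
  obtain ⟨ε, hε⟩ : ∃ ε : ℝ, ε = η / (8 * B * M) := ⟨_, rfl⟩
  have hε0 : 0 < ε := by rw [hε]; positivity
  have hεe : 2 * ε * B * M = η / 4 := by
    rw [hε]; field_simp; ring
  have hs : HasCompactSupport (fun x : Set.Ioi (0 : ℝ) => (x : ℝ) ^ 3 * g x * ch ε x) :=
    cut_support (F := fun x => x ^ 3 * g x) hε0
  have hcg : Continuous fun x : ℝ => x * g x := continuous_id.mul hg
  have hcgc : Continuous fun x : ℝ => x * g x * ch ε x := hcg.mul (continuous_ch ε)
  have hcF : Continuous (fun x : Set.Ioi (0 : ℝ) => (x : ℝ) ^ 3 * g x * ch ε x) :=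
    ((continuous_subtype_val.pow 3).mul (hg.comp continuous_subtype_val)).mul
      ((continuous_ch _).comp continuous_subtype_val)
  have hlim := Metric.tendsto_atTop.1 (muLim_spec hcF hs) (η / 4) (by positivity)
  obtain ⟨N1, hN1⟩ := hlim
  obtain ⟨N2, hN2⟩ := eventually_atTop.1 hM
  have hA : |∫ x : Set.Ioi (0 : ℝ), (x : ℝ) ^ 3 * g x * ch ε x ∂muLim -
      ∫ x : Set.Ioi (0 : ℝ), (x : ℝ) ^ 3 * g x ∂muLim| ≤ η / 4 := by
    rw [← integral_sub (hcF.integrable_of_hasCompactSupport hs) (int_cube hg)]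
    have h1 : ‖∫ x : Set.Ioi (0 : ℝ), ((x : ℝ) ^ 3 * g x * ch ε x - (x : ℝ) ^ 3 * g x) ∂muLim‖ ≤
        ∫ x : Set.Ioi (0 : ℝ), 2 * ε * B * (x : ℝ) ^ 2 ∂muLim := by
      refine norm_integral_le_of_norm_le (int_sq.const_mul _) ?_
      filter_upwards [ae_half] with x hx
      have hx0 : (0 : ℝ) < x := x.2
      have h2 := hpt ε hε0 x ⟨hx0.le, by linarith⟩
      have h3 : (x : ℝ) ^ 3 * g x * ch ε x - (x : ℝ) ^ 3 * g x =
          -((x : ℝ) ^ 2 * ((x : ℝ) * g x * (1 - ch ε x))) := by ring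
      rw [h3, norm_neg, norm_mul, norm_pow, Real.norm_eq_abs, abs_of_pos hx0, mul_comm]
      exact mul_le_mul_of_nonneg_right h2 (by positivity)
    rw [integral_const_mul] at h1
    refine h1.trans ?_
    rw [← hεe]
    exact mul_le_mul_of_nonneg_left hsq (by positivity)
  refine ⟨max (max N1 N2) 1, fun d hd => ?_⟩
  have hd1 : N1 ≤ d := (le_max_left _ _).trans ((le_max_left _ _).trans hd)
  have hd2 : N2 ≤ d := (le_max_right _ _).trans ((le_max_left _ _).trans hd)
  have hd3 : 0 < d := (le_max_right _ _).trans hd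
  have hBd : |∫ x : Set.Ioi (0 : ℝ), (x : ℝ) ^ 3 * g x ∂(mu d) -
      ∫ x : Set.Ioi (0 : ℝ), (x : ℝ) ^ 3 * g x * ch ε x ∂(mu d)| ≤ η / 4 := by
    have e1 : ∫ x : Set.Ioi (0 : ℝ), (x : ℝ) ^ 3 * g x ∂(mu d) = Rd d fun x => x * g x := by
      rw [← int_mu_sq hd3 hcg]
      refine integral_congr_ae (Eventually.of_forall fun x => ?_)
      simp only
      ring
    have e2 : ∫ x : Set.Ioi (0 : ℝ), (x : ℝ) ^ 3 * g x * ch ε x ∂(mu d) =
        Rd d fun x => x * g x * ch ε x := by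
      rw [← int_mu_sq hd3 hcgc]
      refine integral_congr_ae (Eventually.of_forall fun x => ?_)
      simp only
      ring
    rw [e1, e2, ← Rd_sub d hcg hcgc]
    have h1 := Rd_one_le d (h := fun x => x * g x - x * g x * ch ε x)
      (hcg.sub hcgc) (ε := 2 * ε * B) (fun x hx => by
        have h2 := hpt ε hε0 x hx
        have h3 : x * g x - x * g x * ch ε x = x * g x * (1 - ch ε x) := by ring
        rw [h3]
        exact h2)
    refine h1.trans ?_
    rw [← hεe]
    exact mul_le_mul_of_nonneg_left (hN2 d hd2) (by positivity)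
  have h1 := hN1 d hd1
  rw [Real.dist_eq] at h1 ⊢
  rw [abs_le] at hA hBd
  rw [abs_lt] at h1 ⊢
  constructor <;> linarith [hA.1, hA.2, hBd.1, hBd.2, h1.1, h1.2]

theorem moment_eq_int {d : ℕ} (hd : 0 < d) (k : ℕ) (hk : 3 ≤ k) :
    ∫ x : Set.Ioi (0 : ℝ), (x : ℝ) ^ k ∂(mu d) = 2 ^ d * d * moment d k := by
  obtain ⟨j, rfl⟩ : ∃ j, k = j + 2 := ⟨k - 2, by omega⟩
  rw [← Rd_pow d j hd, ← int_mu_sq hd (by fun_prop : Continuous fun x : ℝ => x ^ j)]
  refine integral_congr_ae (Eventually.of_forall fun x => ?_)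
  simp only
  ring

theorem moments (k : ℕ) (hk : 3 ≤ k) :
    Integrable (fun x : Set.Ioi (0 : ℝ) => (x : ℝ) ^ k) muLim ∧
    0 < ∫ x : Set.Ioi (0 : ℝ), (x : ℝ) ^ k ∂muLim ∧
    Tendsto (fun d : ℕ => 2 ^ d * d * moment d k) atTop
      (𝓝 (∫ x : Set.Ioi (0 : ℝ), (x : ℝ) ^ k ∂muLim)) := by
  obtain ⟨j, rfl⟩ : ∃ j, k = 3 + j := ⟨k - 3, by omega⟩
  have hc : Continuous fun x : ℝ => x ^ j := by fun_prop
  have e : ∀ x : ℝ, x ^ (3 + j) = x ^ 3 * x ^ j := fun x => pow_add x 3 j
  have hlim : Tendsto (fun d : ℕ => 2 ^ d * d * moment d (3 + j)) atTop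
      (𝓝 (∫ x : Set.Ioi (0 : ℝ), (x : ℝ) ^ (3 + j) ∂muLim)) := by
    have h1 := weak_cube hc
    simp only [← e] at h1
    refine h1.congr' ?_
    filter_upwards [eventually_gt_atTop 0] with d hd
    exact moment_eq_int hd _ hk
  obtain ⟨c, hc0, hc'⟩ := tendsto_moment (3 + j) (by omega)
  refine ⟨?_, ?_, hlim⟩
  · have h1 := int_cube hc
    simp only [← e] at h1
    exact h1
  · rw [tendsto_nhds_unique hlim hc']
    exact hc0

/-- The limit is unique. -/
theorem unique {μ : Measure (Set.Ioi (0 : ℝ))} (hμ : IsLocallyFiniteMeasure μ)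
    (h : ∀ f : Set.Ioi (0 : ℝ) → ℝ, Continuous f → HasCompactSupport f →
      Tendsto (fun d : ℕ => ∫ x, f x ∂(mu d)) atTop (𝓝 (∫ x, f x ∂μ))) : μ = muLim := by
  refine Measure.ext_of_integral_eq_on_compactlySupported fun f => ?_
  exact tendsto_nhds_unique (h f f.continuous f.hasCompactSupport)
    (muLim_spec f.continuous f.hasCompactSupport)

/-! ### Tails -/

/-- A ramp. -/
noncomputable def rp (a b x : ℝ) : ℝ := min 1 (max 0 ((x - a) / (b - a))) * max 0 (min 1 (2 - x))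

theorem continuous_rp (a b : ℝ) : Continuous (rp a b) := by
  unfold rp
  fun_prop

theorem rp_nonneg (a b x : ℝ) : 0 ≤ rp a b x :=
  mul_nonneg (le_min zero_le_one (le_max_left _ _)) (le_max_left _ _)

theorem rp_le_one (a b x : ℝ) : rp a b x ≤ 1 :=
  mul_le_one₀ (min_le_left _ _) (le_max_left _ _) (max_le zero_le_one (min_le_left _ _))

theorem rp_low {a b : ℝ} (hab : a < b) {x : ℝ} (hx : x ≤ a) : rp a b x = 0 := by
  unfold rp
  have h1 : (x - a) / (b - a) ≤ 0 := div_nonpos_of_nonpos_of_nonneg (by linarith) (by linarith)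
  rw [max_eq_left h1, min_eq_right zero_le_one, zero_mul]

theorem rp_one {a b : ℝ} (hab : a < b) {x : ℝ} (h1 : b ≤ x) (h2 : x ≤ 1) : rp a b x = 1 := by
  unfold rp
  have h3 : 1 ≤ (x - a) / (b - a) := by
    rw [le_div_iff₀ (by linarith)]
    linarith
  rw [max_eq_right (by linarith : (0 : ℝ) ≤ (x - a) / (b - a)), min_eq_left h3,
    min_eq_left (by linarith : (1 : ℝ) ≤ 2 - x), max_eq_right zero_le_one, mul_one]

theorem rp_support {a b : ℝ} (ha : 0 < a) (hab : a < b) :
    HasCompactSupport (fun x : Set.Ioi (0 : ℝ) => rp a b x) := by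
  refine cs (F := rp a b) (a := a) (b := 2) ha fun x hx => ?_
  rcases hx with hx | hx
  · exact rp_low hab hx.le
  · unfold rp
    have h1 : min 1 (2 - x) ≤ 0 := (min_le_right _ _).trans (by linarith)
    rw [max_eq_left h1, mul_zero]

theorem rp_lim {a b : ℝ} (ha : 0 < a) (hab : a < b) :
    Tendsto (fun d => ∫ x : Set.Ioi (0 : ℝ), rp a b x ∂(mu d)) atTop
      (𝓝 (∫ x : Set.Ioi (0 : ℝ), rp a b x ∂muLim)) :=
  muLim_spec ((continuous_rp a b).comp continuous_subtype_val) (rp_support ha hab)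

theorem meas_tail (t : ℝ) : MeasurableSet {x : Set.Ioi (0 : ℝ) | t ≤ (x : ℝ)} :=
  measurableSet_le measurable_const measurable_subtype_coe

theorem rp_upper {a b : ℝ} (ha : 0 < a) (hab : a < b) :
    ∫ x : Set.Ioi (0 : ℝ), rp a b x ∂muLim ≤ muLim.real {x : Set.Ioi (0 : ℝ) | a ≤ (x : ℝ)} := by
  rw [← integral_indicator_one (meas_tail a)]
  refine integral_mono (((continuous_rp a b).comp
    continuous_subtype_val).integrable_of_hasCompactSupport (rp_support ha hab)) ?_ fun x => ?_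
  · exact (integrable_indicator_iff (meas_tail a)).2 (integrableOn_const (muLim_tail ha).ne)
  · by_cases hx : a ≤ (x : ℝ)
    · rw [Set.indicator_of_mem (by exact hx)]
      exact rp_le_one _ _ _
    · rw [Set.indicator_of_notMem (by exact hx)]
      exact (rp_low hab (not_le.1 hx).le).le

theorem rp_lower {a b : ℝ} (ha : 0 < a) (hab : a < b) :
    muLim.real {x : Set.Ioi (0 : ℝ) | b ≤ (x : ℝ)} ≤ ∫ x : Set.Ioi (0 : ℝ), rp a b x ∂muLim := by
  rw [← integral_indicator_one (meas_tail b)]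
  refine integral_mono_ae ?_ (((continuous_rp a b).comp
    continuous_subtype_val).integrable_of_hasCompactSupport (rp_support ha hab)) ?_
  · exact (integrable_indicator_iff (meas_tail b)).2
      (integrableOn_const (muLim_tail (ha.trans hab)).ne)
  · filter_upwards [ae_half] with x hx'
    by_cases hx : b ≤ (x : ℝ)
    · rw [Set.indicator_of_mem (by exact hx), rp_one hab hx (by linarith)]
      exact le_rfl
    · rw [Set.indicator_of_notMem (by exact hx)]
      exact rp_nonneg _ _ _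

/-- the tail of `μ_d` as a Gaussian integral -/
theorem tail_eq {d : ℕ} (hd : 0 < d) (t : ℝ) :
    (law d).real {U | t ≤ angle (pos U)} =
      ∫ G, (Set.Ici t).indicator (fun _ => (1 : ℝ)) (ar G) ∂(gm d d) := by
  have := (unif hd).prob
  have hae : AEMeasurable (fun U : Fin d → EuclideanSpace ℝ (Fin d) => angle (pos U)) (law d) :=
    ⟨al (sigma d), measurable_al, angle_eq hd⟩
  have hm : Measurable ((Set.Ici t).indicator (fun _ => (1 : ℝ)) : ℝ → ℝ) :=
    measurable_const.indicator measurableSet_Ici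
  have h1 := int_law hd _ hm
  have h2 : ∫ U, (Set.Ici t).indicator (fun _ => (1 : ℝ)) (angle (pos U)) ∂(law d) =
      (law d).real {U | t ≤ angle (pos U)} := by
    rw [← integral_map hae hm.aestronglyMeasurable]
    have h3 := integral_indicator_one (μ := (law d).map
      (fun U : Fin d → EuclideanSpace ℝ (Fin d) => angle (pos U))) (s := Set.Ici t)
      measurableSet_Ici
    refine Eq.trans ?_ (h3.trans ?_)
    · rfl
    · rw [Measure.real, Measure.map_apply_of_aemeasurable hae measurableSet_Ici]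
      rfl
  rw [← h2, h1]
  rfl

theorem int_bdd {d : ℕ} {f : ℝ → ℝ} (hf : Measurable f) (h : ∀ x, |f x| ≤ 1) :
    Integrable (fun G : Mt d d => f (ar G)) (gm d d) :=
  Integrable.of_bound (hf.comp measurable_ar).aestronglyMeasurable 1
    (Eventually.of_forall fun _ => h _)

theorem rp_abs (a b x : ℝ) : |rp a b x| ≤ 1 := by
  rw [abs_of_nonneg (rp_nonneg _ _ _)]
  exact rp_le_one _ _ _

theorem ind_abs (t x : ℝ) : |(Set.Ici t).indicator (fun _ => (1 : ℝ)) x| ≤ 1 := by
  by_cases hx : x ∈ Set.Ici t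
  · rw [Set.indicator_of_mem hx, abs_one]
  · rw [Set.indicator_of_notMem hx, abs_zero]
    exact zero_le_one

/-- **Tails.** -/
theorem tail_lim {t : ℝ} (ht : 0 < t) (hat : muLim {x : Set.Ioi (0 : ℝ) | (x : ℝ) = t} = 0) :
    Tendsto (fun d : ℕ => 2 ^ d * d * (law d).real {U | t ≤ angle (pos U)}) atTop
      (𝓝 (muLim.real {x : Set.Ioi (0 : ℝ) | t ≤ (x : ℝ)})) := by
  have hind : Measurable ((Set.Ici t).indicator (fun _ => (1 : ℝ)) : ℝ → ℝ) :=
    measurable_const.indicator measurableSet_Ici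
  have hlow : ∀ (b : ℝ), t < b → ∀ d : ℕ, 0 < d → ∫ x : Set.Ioi (0 : ℝ), rp t b x ∂(mu d) ≤
      2 ^ d * d * (law d).real {U | t ≤ angle (pos U)} := by
    intro b hb d hd
    rw [int_mu_gen hd (continuous_rp t b) (rp_low hb ht.le), tail_eq hd]
    refine mul_le_mul_of_nonneg_left ?_ (by positivity)
    refine integral_mono (int_bdd (continuous_rp t b).measurable (rp_abs t b))
      (int_bdd hind (ind_abs t)) fun G => ?_
    by_cases hx : t ≤ ar G
    · simp only [Set.indicator_of_mem (show ar G ∈ Set.Ici t from hx)]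
      exact rp_le_one _ _ _
    · simp only [Set.indicator_of_notMem (show ar G ∉ Set.Ici t from hx)]
      exact (rp_low hb (not_le.1 hx).le).le
  have hupp : ∀ (a : ℝ), 0 < a → a < t → ∀ d : ℕ, 0 < d →
      2 ^ d * d * (law d).real {U | t ≤ angle (pos U)} ≤
        ∫ x : Set.Ioi (0 : ℝ), rp a t x ∂(mu d) := by
    intro a ha hat d hd
    rw [int_mu_gen hd (continuous_rp a t) (rp_low hat ha.le), tail_eq hd]
    refine mul_le_mul_of_nonneg_left ?_ (by positivity)
    refine integral_mono_ae (int_bdd hind (ind_abs t))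
      (int_bdd (continuous_rp a t).measurable (rp_abs a t)) ?_
    filter_upwards [ae_le_half hd] with G hG
    by_cases hx : t ≤ ar G
    · rw [Set.indicator_of_mem (show ar G ∈ Set.Ici t from hx), rp_one hat hx (by linarith)]
    · rw [Set.indicator_of_notMem (show ar G ∉ Set.Ici t from hx)]
      exact rp_nonneg _ _ _
  -- continuity of the tail of the limit measure at `t`
  have hfin := (muLim_tail ht).ne
  have hL : Tendsto (fun n : ℕ => muLim.real {x : Set.Ioi (0 : ℝ) | t + 1 / ((n : ℝ) + 1) ≤ (x : ℝ)})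
      atTop (𝓝 (muLim.real {x : Set.Ioi (0 : ℝ) | t ≤ (x : ℝ)})) := by
    have hmono : Monotone fun n : ℕ => {x : Set.Ioi (0 : ℝ) | t + 1 / ((n : ℝ) + 1) ≤ (x : ℝ)} := by
      intro n m hnm x hx
      have hnm' : (n : ℝ) ≤ m := by exact_mod_cast hnm
      have : 1 / ((m : ℝ) + 1) ≤ 1 / ((n : ℝ) + 1) :=
        one_div_le_one_div_of_le (by positivity) (by linarith)
      have hx' : t + 1 / ((n : ℝ) + 1) ≤ (x : ℝ) := hx
      show t + 1 / ((m : ℝ) + 1) ≤ (x : ℝ)
      linarith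
    have h1 := tendsto_measure_iUnion_atTop (μ := muLim) hmono
    have h2 : muLim (⋃ n : ℕ, {x : Set.Ioi (0 : ℝ) | t + 1 / ((n : ℝ) + 1) ≤ (x : ℝ)}) =
        muLim {x : Set.Ioi (0 : ℝ) | t ≤ (x : ℝ)} := by
      refine le_antisymm (measure_mono ?_) ?_
      · refine Set.iUnion_subset fun n x hx => ?_
        have hx' : t + 1 / ((n : ℝ) + 1) ≤ (x : ℝ) := hx
        have : 0 < 1 / ((n : ℝ) + 1) := by positivity
        show t ≤ (x : ℝ)
        linarith
      · have hsub : {x : Set.Ioi (0 : ℝ) | t ≤ (x : ℝ)} ⊆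
            (⋃ n : ℕ, {x : Set.Ioi (0 : ℝ) | t + 1 / ((n : ℝ) + 1) ≤ (x : ℝ)}) ∪
              {x : Set.Ioi (0 : ℝ) | (x : ℝ) = t} := by
          intro x hx
          rcases eq_or_lt_of_le (show t ≤ (x : ℝ) from hx) with h | h
          · exact Or.inr h.symm
          · left
            obtain ⟨n, hn⟩ := exists_nat_one_div_lt (sub_pos.2 h)
            rw [Set.mem_iUnion]
            exact ⟨n, show t + 1 / ((n : ℝ) + 1) ≤ (x : ℝ) by linarith⟩
        refine (measure_mono hsub).trans ((measure_union_le _ _).trans ?_)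
        rw [hat, add_zero]
    rw [h2] at h1
    exact (ENNReal.tendsto_toReal hfin).comp h1
  have hU : Tendsto (fun n : ℕ => muLim.real {x : Set.Ioi (0 : ℝ) | t - t / ((n : ℝ) + 2) ≤ (x : ℝ)})
      atTop (𝓝 (muLim.real {x : Set.Ioi (0 : ℝ) | t ≤ (x : ℝ)})) := by
    have hanti : Antitone fun n : ℕ =>
        {x : Set.Ioi (0 : ℝ) | t - t / ((n : ℝ) + 2) ≤ (x : ℝ)} := by
      intro n m hnm x hx
      have hnm' : (n : ℝ) ≤ m := by exact_mod_cast hnm
      have : t / ((m : ℝ) + 2) ≤ t / ((n : ℝ) + 2) :=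
        div_le_div_of_nonneg_left ht.le (by positivity) (by linarith)
      have hx' : t - t / ((m : ℝ) + 2) ≤ (x : ℝ) := hx
      show t - t / ((n : ℝ) + 2) ≤ (x : ℝ)
      linarith
    have h0 : (0 : ℝ) < t - t / (((0 : ℕ) : ℝ) + 2) := by
      have : t / (((0 : ℕ) : ℝ) + 2) = t / 2 := by norm_num
      rw [this]; linarith
    have h1 := tendsto_measure_iInter_atTop (μ := muLim)
      (fun n : ℕ => (meas_tail (t - t / ((n : ℝ) + 2))).nullMeasurableSet) hanti
      ⟨0, (muLim_tail h0).ne⟩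
    have h2 : (⋂ n : ℕ, {x : Set.Ioi (0 : ℝ) | t - t / ((n : ℝ) + 2) ≤ (x : ℝ)}) =
        {x : Set.Ioi (0 : ℝ) | t ≤ (x : ℝ)} := by
      ext x
      rw [Set.mem_iInter]
      constructor
      · intro h
        by_contra hcon
        have hcon' : (x : ℝ) < t := not_le.1 hcon
        obtain ⟨n, hn⟩ := exists_nat_gt (t / (t - x))
        have hn2 := h n
        have hn3 : t - t / ((n : ℝ) + 2) ≤ (x : ℝ) := hn2
        have h5 : t / (t - x) < (n : ℝ) + 2 := by linarith
        rw [div_lt_iff₀ (by linarith)] at h5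
        have h6 : t / ((n : ℝ) + 2) < t - x := by
          rw [div_lt_iff₀ (by positivity)]
          linarith
        linarith
      · intro h n
        have h' : t ≤ (x : ℝ) := h
        have : 0 < t / ((n : ℝ) + 2) := by positivity
        show t - t / ((n : ℝ) + 2) ≤ (x : ℝ)
        linarith
    rw [h2] at h1
    exact (ENNReal.tendsto_toReal hfin).comp h1
  rw [tendsto_order]
  constructor
  · intro u hu
    obtain ⟨n, hn⟩ := (hL.eventually (lt_mem_nhds hu)).exists
    have hb : t < t + 1 / ((n : ℝ) + 1) := by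
      have : 0 < 1 / ((n : ℝ) + 1) := by positivity
      linarith
    have h1 := hn.trans_le (rp_lower ht hb)
    filter_upwards [(rp_lim ht hb).eventually (lt_mem_nhds h1), eventually_gt_atTop 0] with d hd hd0
    exact hd.trans_le (hlow _ hb d hd0)
  · intro u hu
    obtain ⟨n, hn⟩ := (hU.eventually (gt_mem_nhds hu)).exists
    have ha : 0 < t - t / ((n : ℝ) + 2) := by
      rw [sub_pos, div_lt_iff₀ (by positivity)]
      have : (0 : ℝ) ≤ n := Nat.cast_nonneg n
      nlinarith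
    have hb : t - t / ((n : ℝ) + 2) < t := by
      have : 0 < t / ((n : ℝ) + 2) := by positivity
      linarith
    have h1 := (rp_upper ha hb).trans_lt hn
    filter_upwards [(rp_lim ha hb).eventually (gt_mem_nhds h1), eventually_gt_atTop 0] with d hd hd0
    exact (hupp _ ha hb d hd0).trans_lt hd

/-- `μ` is the vague limit of the measures `μ_d(A) = 2^d d P[α_d ∈ A]` on `(0,∞)`. -/
def IsVagueLimit (μ : Measure (Set.Ioi (0 : ℝ))) : Prop :=
  IsLocallyFiniteMeasure μ ∧
    ∀ f : Set.Ioi (0 : ℝ) → ℝ, Continuous f → HasCompactSupport f →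
      Tendsto (fun d : ℕ => ∫ x, f x ∂(mu d)) atTop (𝓝 (∫ x, f x ∂μ))

/-- **Main theorem.** The measures `μ_d(A) = 2^d d P[α_d ∈ A]` have exactly one vague limit on
`(0, ∞)`; it is not zero.  The limit `μ` has the following properties: it is concentrated on
`(0, 1/2]`, and `μ([t, ∞))` is finite for all `t > 0`; if `μ({t}) = 0` (which holds for all but
countably many `t > 0`) then `2^d d P[α_d ≥ t]` converges to `μ([t, ∞))`; the measures `x³ μ_d`
converge weakly to `x³ μ`; for all `k ≥ 3` the moment of order `k` of `μ` is finite, positive, and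
the limit of `2^d d m(d, k)`, where `m(d, k) = E[α_d^k]`. -/
theorem result :
    (∀ d : ℕ, 0 < d → IsProbabilityMeasure (law d) ∧
      AEMeasurable (fun U : Fin d → EuclideanSpace ℝ (Fin d) => angle (pos U)) (law d)) ∧
    ∃ μ : Measure (Set.Ioi (0 : ℝ)), IsVagueLimit μ ∧ μ ≠ 0 ∧ (∀ μ', IsVagueLimit μ' → μ' = μ) ∧
      μ {x | 1 / 2 < (x : ℝ)} = 0 ∧
      (∀ t : ℝ, 0 < t → μ {x | t ≤ (x : ℝ)} < ∞) ∧
      {t : ℝ | μ {x | (x : ℝ) = t} ≠ 0}.Countable ∧
      (∀ t : ℝ, 0 < t → μ {x | (x : ℝ) = t} = 0 →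
        Tendsto (fun d : ℕ => 2 ^ d * d * (law d).real {U | t ≤ angle (pos U)}) atTop
          (𝓝 (μ.real {x | t ≤ (x : ℝ)}))) ∧
      (∀ g : ℝ → ℝ, Continuous g →
        Integrable (fun x : Set.Ioi (0 : ℝ) => (x : ℝ) ^ 3 * g x) μ ∧
        Tendsto (fun d : ℕ => ∫ x : Set.Ioi (0 : ℝ), (x : ℝ) ^ 3 * g x ∂(mu d)) atTop
          (𝓝 (∫ x : Set.Ioi (0 : ℝ), (x : ℝ) ^ 3 * g x ∂μ))) ∧
      ∀ k : ℕ, 3 ≤ k → Integrable (fun x : Set.Ioi (0 : ℝ) => (x : ℝ) ^ k) μ ∧
        0 < ∫ x : Set.Ioi (0 : ℝ), (x : ℝ) ^ k ∂μ ∧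
        Tendsto (fun d : ℕ => 2 ^ d * d * ∫ U, angle (pos U) ^ k ∂(law d)) atTop
          (𝓝 (∫ x : Set.Ioi (0 : ℝ), (x : ℝ) ^ k ∂μ)) := by
  refine ⟨VagueLimit.result.1, muLim, ⟨muLim_locallyFinite, fun f hf hs => muLim_spec hf hs⟩,
    muLim_ne_zero, fun μ' h => unique h.1 h.2, muLim_half, fun t ht => muLim_tail ht, ?_,
    fun t ht h => tail_lim ht h, fun g hg => ⟨int_cube hg, weak_cube hg⟩, fun k hk => moments k hk⟩
  have h1 := Measure.countable_meas_pos_of_disjoint_iUnion₀ (μ := muLim)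
    (As := fun t : ℝ => {x : Set.Ioi (0 : ℝ) | (x : ℝ) = t})
    (fun t => (measurableSet_eq_fun measurable_subtype_coe measurable_const).nullMeasurableSet)
    (fun s t hst => by
      refine Disjoint.aedisjoint ?_
      rw [Set.disjoint_left]
      intro x hx hx'
      exact hst ((show (x : ℝ) = s from hx).symm.trans hx'))
  refine h1.mono fun t ht => ?_
  exact pos_iff_ne_zero.2 ht

end Pool.Agent.Results.MP_da621d_pr.LimitMeasure
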